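import Mathlib
import Pool.Agent.Z894.CP.Stm4
import Pool.Agent.Y170.LX.Fin

/-!
# Project SP, part 3: comparison of Hilbert functions, degree of a Kummer extension

An edit of `Pool/Agent/Y170/MB/Cmp.lean`: the degree `δ` divides a power of `p`.
-/

set_option autoImplicit false
set_option linter.unusedSectionVars false

open MvPolynomial

namespace Pool.Agent.Y170.SP

open Pool.Agent.TH922.KC Pool.Agent.Z894.LX Pool.Agent.Y170.LX

section kum

theorem prod_roots {Ω : Type*} [Field Ω] {ζ w : Ω} (s : Multiset Ω)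
    (h : ∀ x ∈ s, ∃ i : ℕ, x = ζ ^ i * w) :
    ∃ i : ℕ, s.prod = ζ ^ i * w ^ s.card := by
  induction s using Multiset.induction_on with
  | empty => exact ⟨0, by simp⟩
  | cons a s ih =>
    obtain ⟨i, hi⟩ := h a (Multiset.mem_cons_self a s)
    obtain ⟨j, hj⟩ := ih fun x hx => h x (Multiset.mem_cons_of_mem hx)
    exact ⟨i + j, by rw [Multiset.prod_cons, hj, hi, Multiset.card_cons]; ring⟩

/-- the degree of a simple Kummer extension -/
theorem single {L Ω : Type*} [Field L] [Field Ω] [Algebra L Ω] {q : ℕ} (hq : 0 < q) {ζ : L}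
    (hζ : IsPrimitiveRoot ζ q) {w : Ω} {a : L} (ha : w ^ q = algebraMap L Ω a) :
    Module.finrank L (IntermediateField.adjoin L {w}) ∣ q := by
  have hev : Polynomial.aeval w (Polynomial.X ^ q - Polynomial.C a : Polynomial L) = 0 := by
    rw [map_sub, map_pow, Polynomial.aeval_X, Polynomial.aeval_C, ha, sub_self]
  have hint : IsIntegral L w := ⟨Polynomial.X ^ q - Polynomial.C a,
    Polynomial.monic_X_pow_sub_C a hq.ne', hev⟩
  rw [IntermediateField.adjoin.finrank hint]
  by_cases hw0 : w = 0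
  · rw [hw0, minpoly.zero, Polynomial.natDegree_X]
    exact one_dvd _
  have hdvd : minpoly L w ∣ Polynomial.X ^ q - Polynomial.C a := minpoly.dvd L w hev
  have hζ' : IsPrimitiveRoot (algebraMap L Ω ζ) q :=
    hζ.map_of_injective (algebraMap L Ω).injective
  have hQ := X_pow_sub_C_eq_prod hζ' hq ha
  have hdvd' : (minpoly L w).map (algebraMap L Ω) ∣
      Polynomial.X ^ q - Polynomial.C (algebraMap L Ω a) := by
    have h1 := Polynomial.map_dvd (algebraMap L Ω) hdvd
    rwa [Polynomial.map_sub, Polynomial.map_pow, Polynomial.map_X, Polynomial.map_C] at h1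
  have hQ0 : (Polynomial.X ^ q - Polynomial.C (algebraMap L Ω a) : Polynomial Ω) ≠ 0 :=
    (Polynomial.monic_X_pow_sub_C _ hq.ne').ne_zero
  have hsp : ((minpoly L w).map (algebraMap L Ω)).Splits :=
    (X_pow_sub_C_splits_of_isPrimitiveRoot hζ' ha).of_dvd hQ0 hdvd'
  have hmon : ((minpoly L w).map (algebraMap L Ω)).Monic := (minpoly.monic hint).map _
  have hroots : ∀ x ∈ ((minpoly L w).map (algebraMap L Ω)).roots,
      ∃ i : ℕ, x = (algebraMap L Ω ζ) ^ i * w := by
    intro x hx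
    have h1 : (Polynomial.X ^ q - Polynomial.C (algebraMap L Ω a) : Polynomial Ω).IsRoot x :=
      (Polynomial.isRoot_of_mem_roots hx).dvd hdvd'
    rw [hQ, Polynomial.IsRoot.def, Polynomial.eval_prod, Finset.prod_eq_zero_iff] at h1
    obtain ⟨i, -, hi⟩ := h1
    rw [Polynomial.eval_sub, Polynomial.eval_X, Polynomial.eval_C, sub_eq_zero] at hi
    exact ⟨i, hi⟩
  obtain ⟨i, hi⟩ := prod_roots _ hroots
  have hc := hsp.coeff_zero_eq_prod_roots_of_monic hmon
  rw [hi, ← hsp.natDegree_eq_card_roots, Polynomial.coeff_map,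
    Polynomial.natDegree_map] at hc
  set D := (minpoly L w).natDegree with hD
  have hD0 : 0 < D := minpoly.natDegree_pos hint
  have hζ0 : algebraMap L Ω ζ ≠ 0 := hζ'.ne_zero hq.ne'
  -- `w ^ D` lies in `L`
  have hwD : ∃ b : L, w ^ D = algebraMap L Ω b := by
    refine ⟨(-1) ^ D * (ζ ^ i)⁻¹ * (minpoly L w).coeff 0, ?_⟩
    rw [map_mul, map_mul, map_pow, map_neg, map_one, map_inv₀, map_pow, hc]
    have h1 : ((-1 : Ω) ^ D) * (-1) ^ D = 1 := by
      rw [← mul_pow, neg_one_mul, neg_neg, one_pow]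
    have h2 : ((algebraMap L Ω) ζ ^ i)⁻¹ * (algebraMap L Ω) ζ ^ i = 1 :=
      inv_mul_cancel₀ (pow_ne_zero _ hζ0)
    calc w ^ D = ((-1 : Ω) ^ D * (-1) ^ D) *
          (((algebraMap L Ω) ζ ^ i)⁻¹ * (algebraMap L Ω) ζ ^ i) * w ^ D := by
            rw [h1, h2, one_mul, one_mul]
      _ = _ := by ring
  -- minimality
  have hmin : ∀ m : ℕ, 0 < m → (∃ b : L, w ^ m = algebraMap L Ω b) → D ≤ m := by
    rintro m hm ⟨b, hb⟩
    have h1 : Polynomial.aeval w (Polynomial.X ^ m - Polynomial.C b : Polynomial L) = 0 := by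
      rw [map_sub, map_pow, Polynomial.aeval_X, Polynomial.aeval_C, hb, sub_self]
    have h2 := Polynomial.natDegree_le_of_dvd (minpoly.dvd L w h1)
      (Polynomial.monic_X_pow_sub_C b hm.ne').ne_zero
    rwa [Polynomial.natDegree_X_pow_sub_C] at h2
  obtain ⟨b, hb⟩ := hwD
  have hb0 : algebraMap L Ω b ≠ 0 := by
    rw [← hb]
    exact pow_ne_zero _ hw0
  rw [Nat.dvd_iff_mod_eq_zero]
  by_contra hne
  have h1 : D ≤ q % D := by
    refine hmin _ (Nat.pos_of_ne_zero hne) ⟨a / b ^ (q / D), ?_⟩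
    rw [map_div₀, map_pow, ← ha, ← hb, ← pow_mul, eq_div_iff (pow_ne_zero _ hw0), ← pow_add,
      Nat.mod_add_div]
  exact absurd (Nat.mod_lt q hD0) (not_lt.2 h1)

/-- the degree of an extension by several roots -/
theorem tower {K Ω β : Type*} [Field K] [Field Ω] [Algebra K Ω] {q : ℕ} (hq : 0 < q) {ζ : K}
    (hζ : IsPrimitiveRoot ζ q) (v : β → Ω) (hv : ∀ i, ∃ a : K, v i ^ q = algebraMap K Ω a)
    (s : Finset β) :
    Module.finrank K (IntermediateField.adjoin K (v '' s)) ∣ q ^ s.card := by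
  classical
  induction s using Finset.induction_on with
  | empty =>
    rw [Finset.coe_empty, Set.image_empty, IntermediateField.adjoin_empty,
      IntermediateField.finrank_bot]
    exact one_dvd _
  | insert a s ha ih =>
    have h1 : IntermediateField.adjoin K (v '' ((insert a s : Finset β) : Set β)) =
        (IntermediateField.adjoin (IntermediateField.adjoin K (v '' (s : Set β)))
          {v a}).restrictScalars K := by
      rw [Finset.coe_insert, Set.image_insert_eq, Set.insert_eq, Set.union_comm,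
        IntermediateField.adjoin_adjoin_left]
    have hζL : IsPrimitiveRoot (algebraMap K (IntermediateField.adjoin K (v '' (s : Set β))) ζ)
        q := hζ.map_of_injective (algebraMap K _).injective
    obtain ⟨b, hb⟩ := hv a
    have h2 := single (L := IntermediateField.adjoin K (v '' (s : Set β))) hq hζL (w := v a)
      (a := algebraMap K _ b) (by rw [hb]; rfl)
    have h3 := Module.finrank_mul_finrank K (IntermediateField.adjoin K (v '' (s : Set β)))
      (IntermediateField.adjoin (IntermediateField.adjoin K (v '' (s : Set β))) {v a})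
    rw [h1, Finset.card_insert_of_notMem ha, pow_succ]
    have h4 : Module.finrank K ((IntermediateField.adjoin
        (IntermediateField.adjoin K (v '' (s : Set β))) {v a}).restrictScalars K) =
        Module.finrank K (IntermediateField.adjoin
        (IntermediateField.adjoin K (v '' (s : Set β))) {v a}) := rfl
    rw [h4, ← h3]
    exact Nat.mul_dvd_mul ih h2

/-- the degree of an extension by a finite family of roots -/
theorem tower' {K Ω β : Type*} [Field K] [Field Ω] [Algebra K Ω] [Fintype β] {q : ℕ}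
    (hq : 0 < q) {ζ : K} (hζ : IsPrimitiveRoot ζ q) (v : β → Ω)
    (hv : ∀ i, ∃ a : K, v i ^ q = algebraMap K Ω a) :
    Module.finrank K (IntermediateField.adjoin K (Set.range v)) ∣ q ^ Fintype.card β := by
  have h1 := tower hq hζ v hv Finset.univ
  rwa [Finset.coe_univ, Set.image_univ, Finset.card_univ] at h1

end kum

section cmp

variable {κ Ω X β : Type*} [Field κ] [Field Ω] [Algebra κ Ω] [Fintype X] [Fintype β]
  {y : X → Ω} {z : β → Ω} {e : β → ℕ}

theorem compare5 (j0 : X) (hj0 : y j0 ≠ 0)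
    (he : ∀ i, 0 < e i) (g : β → ℕ → Ω) (hg : ∀ i, ∀ k < e i, g i k ∈ Pc κ y (1 * (e i - k)))
    (hz : ∀ i, z i ^ e i = ∑ k ∈ Finset.range (e i), g i k * z i ^ k) :
    ∃ δ c1 c2 : ℕ, 0 < δ ∧ (∀ q : ℕ, 0 < q → (∃ ω : κ, IsPrimitiveRoot ω q) →
      (∀ i, (z i / y j0) ^ q ∈ RF κ y j0) → δ ∣ q ^ Fintype.card β) ∧ ∀ t,
      Module.finrank κ (Pc κ (Sum.elim y z) t)
        ≤ δ * Module.finrank κ (Pc κ y (t + c1)) ∧
      δ * Module.finrank κ (Pc κ y t)
        ≤ Module.finrank κ (Pc κ (Sum.elim y z) (t + c2)) := by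
  classical
  set u : X ⊕ β → Ω := Sum.elim y z with hu
  set s0 := y j0 with hs0
  have hs00 : s0 ≠ 0 := hj0
  set KA := RF κ y j0 with hKA
  set v : β → Ω := fun i => z i / s0 with hv
  have hint : ∀ i, IsIntegral KA (v i) := by
    intro i
    have hc : ∀ k : Fin (e i), g i k / s0 ^ (e i - k) ∈ KA := by
      intro k
      have h2 := Pc_div_mem hj0 (hg i k k.2)
      rw [one_mul] at h2
      exact h2
    let c : Fin (e i) → KA := fun k => ⟨g i k / s0 ^ (e i - k), hc k⟩
    refine ⟨Polynomial.X ^ e i - ∑ k : Fin (e i), Polynomial.C (c k) * Polynomial.X ^ (k : ℕ),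
      ?_, ?_⟩
    · refine (Polynomial.monic_X_pow (e i)).sub_of_left ?_
      rw [Polynomial.degree_X_pow]
      exact Polynomial.degree_sum_fin_lt c
    · rw [Polynomial.eval₂_sub, Polynomial.eval₂_X_pow, Polynomial.eval₂_finsetSum, sub_eq_zero]
      have h3 : v i ^ e i = z i ^ e i / s0 ^ e i := by simp only [hv, div_pow]
      rw [h3, hz i, Finset.sum_range, Finset.sum_div]
      refine Finset.sum_congr rfl fun k _ => ?_
      rw [Polynomial.eval₂_mul, Polynomial.eval₂_C, Polynomial.eval₂_X_pow]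
      have h4 : algebraMap KA Ω (c k) = g i k / s0 ^ (e i - k) := rfl
      rw [h4]
      simp only [hv, div_pow]
      rw [div_mul_div_comm, ← pow_add, Nat.sub_add_cancel k.2.le]
  have hfd : FiniteDimensional KA (IntermediateField.adjoin KA (Set.range v)) :=
    IntermediateField.finiteDimensional_adjoin (by rintro _ ⟨i, rfl⟩; exact hint i)
  obtain ⟨μ, hμi, hμs⟩ := mono_basis v (fun i => (hint i).isAlgebraic)
  have hδ0 : 0 < Module.finrank KA (IntermediateField.adjoin KA (Set.range v)) :=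
    Module.finrank_pos
  have hδ1 : ∀ q : ℕ, 0 < q → (∃ ω : κ, IsPrimitiveRoot ω q) →
      (∀ i, (z i / s0) ^ q ∈ KA) →
      Module.finrank KA (IntermediateField.adjoin KA (Set.range v)) ∣ q ^ Fintype.card β := by
    rintro q hq ⟨ω, hω⟩ h
    exact tower' hq (hω.map_of_injective (algebraMap κ KA).injective) v
      fun i => ⟨⟨(z i / s0) ^ q, h i⟩, rfl⟩
  generalize Module.finrank KA (IntermediateField.adjoin KA (Set.range v)) = δ at μ hμi hμs hδ0 hδ1
  set m : Fin δ → Ω := fun k => ∏ i, v i ^ μ k i with hm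
  set τ : ℕ := ∑ k, ∑ i, μ k i with hτ
  have hτk : ∀ k, ∑ i, μ k i ≤ τ := fun k =>
    Finset.single_le_sum (f := fun k => ∑ i, μ k i) (fun _ _ => Nat.zero_le _) (Finset.mem_univ k)
  have hMk : ∀ k, s0 ^ τ * m k ∈ Pc κ u τ := by
    intro k
    have h1 : s0 ^ τ * m k = (∏ i, z i ^ μ k i) * s0 ^ (τ - ∑ i, μ k i) := by
      have h2 : s0 ^ τ = s0 ^ (∑ i, μ k i) * s0 ^ (τ - ∑ i, μ k i) := by
        rw [← pow_add, Nat.add_sub_cancel' (hτk k)]
      rw [h2, mul_right_comm]
      congr 1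
      simp only [hm]
      rw [← Finset.prod_pow_eq_pow_sum, ← Finset.prod_mul_distrib]
      refine Finset.prod_congr rfl fun i _ => ?_
      simp only [hv]
      rw [← mul_pow, mul_div_cancel₀ _ hs00]
    rw [h1]
    have h3 := Pc_mul (Pc_prod (κ := κ) (u := u) Finset.univ (fun i => 1 * μ k i)
      (fun i => z i ^ μ k i) (fun i _ => Pc_pow (Pc_X u (Sum.inr i)) _))
      (Pc_pow (Pc_X (κ := κ) u (Sum.inl j0)) (τ - ∑ i, μ k i))
    simp only [one_mul] at h3
    rwa [Nat.add_sub_cancel' (hτk k)] at h3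
  -- part one
  have hbox1 : ∀ γ : (i : β) → Fin (e i), ∃ f : Fin δ → KA,
      (∏ i, v i ^ (γ i : ℕ)) = ∑ k, algebraMap KA Ω (f k) * m k := by
    intro γ
    apply hμs
    exact prod_mem fun i _ => pow_mem
      (IntermediateField.subset_adjoin _ _ (Set.mem_range_self i)) _
  choose f hf using hbox1
  obtain ⟨N, b, hb, hb0, hfb⟩ := common_RF (κ := κ) hj0
    (fun x : ((i : β) → Fin (e i)) × Fin δ => (f x.1 x.2 : Ω)) (fun x => (f x.1 x.2).2)
  have hyp : ∀ k, y j0 ^ k ∈ Pc κ y k := fun k => by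
    have := Pc_pow (Pc_X (κ := κ) y j0) k
    rwa [one_mul] at this
  have hpart1 : ∀ t, ∀ x ∈ Pc κ u t, x * b ∈ LinearMap.range (Lm (Pc κ y (t + N)) m) := by
    intro t
    apply Pc_induction
    intro ρ hρ
    rw [Fintype.prod_sum_type]
    rw [Fintype.sum_sum_type] at hρ
    choose a ha1 ha2 using fun i => red_pow (he i) (hg i) (hz i) (ρ (Sum.inr i))
    have hzp : ∀ i, z i ^ ρ (Sum.inr i) = ∑ k : Fin (e i), a i k * s0 ^ (k : ℕ) * v i ^ (k : ℕ) := by
      intro i
      rw [ha2 i, Finset.sum_range]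
      refine Finset.sum_congr rfl fun k _ => ?_
      rw [mul_assoc, ← mul_pow]
      simp only [hv]
      rw [mul_div_cancel₀ _ hs00]
    have hprod : ∏ i, u (Sum.inr i) ^ ρ (Sum.inr i) =
        ∑ γ : (i : β) → Fin (e i), ∏ i, (a i (γ i) * s0 ^ (γ i : ℕ) * v i ^ (γ i : ℕ)) := by
      have h1 : ∏ i, u (Sum.inr i) ^ ρ (Sum.inr i) =
          ∏ i, ∑ k : Fin (e i), a i k * s0 ^ (k : ℕ) * v i ^ (k : ℕ) :=
        Finset.prod_congr rfl fun i _ => hzp i
      rw [h1, Finset.prod_univ_sum, Fintype.piFinset_univ]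
    rw [hprod, Finset.mul_sum, Finset.sum_mul]
    refine Submodule.sum_mem _ fun γ _ => ?_
    by_cases hzero : ∃ i, a i (γ i) = 0
    · obtain ⟨i, hi⟩ := hzero
      rw [Finset.prod_eq_zero (Finset.mem_univ i) (by rw [hi, zero_mul, zero_mul]), mul_zero,
        zero_mul]
      exact Submodule.zero_mem _
    push Not at hzero
    have hle : ∀ i, (γ i : ℕ) ≤ ρ (Sum.inr i) := fun i => ((ha1 i (γ i)).resolve_right (hzero i)).1
    have hmem : ∀ i, a i (γ i) ∈ Pc κ y (1 * (ρ (Sum.inr i) - γ i)) := fun i =>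
      ((ha1 i (γ i)).resolve_right (hzero i)).2
    set A : Ω := (∏ j, y j ^ ρ (Sum.inl j)) * ((∏ i, a i (γ i)) *
      s0 ^ (∑ i, (γ i : ℕ))) with hA
    have hAm : A ∈ Pc κ y t := by
      have h1 : ∏ j, y j ^ ρ (Sum.inl j) ∈ Pc κ y (∑ j, 1 * ρ (Sum.inl j)) :=
        Pc_prod _ _ _ fun j _ => Pc_pow (Pc_X y j) _
      have h2 : ∏ i, a i (γ i) ∈ Pc κ y (∑ i, 1 * (ρ (Sum.inr i) - γ i)) :=
        Pc_prod _ _ _ fun i _ => hmem i
      have h3 : s0 ^ (∑ i, (γ i : ℕ)) ∈ Pc κ y (∑ i, (γ i : ℕ)) := hyp _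
      have h4 := Pc_mul h1 (Pc_mul h2 h3)
      have h5 : ∑ j, 1 * ρ (Sum.inl j) + (∑ i, 1 * (ρ (Sum.inr i) - γ i)
          + ∑ i, (γ i : ℕ)) = t := by
        rw [← hρ, ← Finset.sum_add_distrib]
        congr 1
        · exact Finset.sum_congr rfl fun j _ => by rw [one_mul]
        · refine Finset.sum_congr rfl fun i _ => ?_
          rw [one_mul, Nat.sub_add_cancel (hle i)]
      rwa [h5] at h4
    have hx : (∏ j, u (Sum.inl j) ^ ρ (Sum.inl j)) *
        (∏ i, (a i (γ i) * s0 ^ (γ i : ℕ) * v i ^ (γ i : ℕ))) = A * ∏ i, v i ^ (γ i : ℕ) := by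
      rw [Finset.prod_mul_distrib, Finset.prod_mul_distrib, Finset.prod_pow_eq_pow_sum, hA]
      simp only [hu, Sum.elim_inl]
      ring
    rw [hx, hf γ, mul_right_comm, Finset.mul_sum]
    refine ⟨fun k => ⟨A * ((f γ k : Ω) * b), Pc_mul hAm (hfb (γ, k))⟩, ?_⟩
    rw [Lm_apply]
    refine Finset.sum_congr rfl fun k _ => ?_
    change A * ((f γ k : Ω) * b) * m k = A * b * ((f γ k : Ω) * m k)
    ring
  -- part two
  have hpart2 : ∀ t, ∀ x ∈ Pc κ y t, x ∈ Pc κ u t := by
    intro t x hx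
    have h1 := Pc_induction (κ := κ) (u := y) (t := t) 1 (Pc κ u t) (fun ρ hρ => by
      rw [mul_one]
      have h2 : ∏ j, y j ^ ρ j ∈ Pc κ u (∑ j, 1 * ρ j) :=
        Pc_prod _ _ _ fun j _ => Pc_pow (Pc_X u (Sum.inl j)) _
      simp only [one_mul] at h2
      rwa [hρ] at h2) x hx
    rwa [mul_one] at h1
  refine ⟨δ, N, τ, hδ0, hδ1, fun t => ⟨?_, ?_⟩⟩
  · have h1 : (Pc κ u t).map (LinearMap.mulRight κ b)
        ≤ LinearMap.range (Lm (Pc κ y (t + N)) m) := by
      rintro _ ⟨x, hx, rfl⟩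
      exact hpart1 t x hx
    have h2 := Submodule.finrank_mono h1
    have h3 : Module.finrank κ ((Pc κ u t).map (LinearMap.mulRight κ b))
        = Module.finrank κ (Pc κ u t) :=
      (Submodule.equivMapOfInjective _ (fun x x' hxy => mul_right_cancel₀ hb0 hxy)
        _).finrank_eq.symm
    rw [h3] at h2
    refine h2.trans ((LinearMap.finrank_range_le _).trans ?_)
    rw [Module.finrank_pi_fintype]
    simp
  · set V := Pc κ y t with hV
    have h1 : Function.Injective (Lm V (fun k => s0 ^ τ * m k)) := by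
      rw [injective_iff_map_eq_zero]
      intro a ha
      rw [Lm_apply] at ha
      have haF : ∀ k, (a k : Ω) / y j0 ^ t ∈ KA := fun k => Pc_div_mem hj0 (a k).2
      rw [Fintype.linearIndependent_iff] at hμi
      have hne : s0 ^ τ * y j0 ^ t ≠ 0 :=
        mul_ne_zero (pow_ne_zero _ hs00) (pow_ne_zero _ hj0)
      have h2 := hμi (fun k => ⟨_, haF k⟩) (by
        have h3 : s0 ^ τ * y j0 ^ t *
            ∑ k, (⟨_, haF k⟩ : KA) • ∏ i, v i ^ μ k i = 0 := by
          rw [← ha, Finset.mul_sum]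
          refine Finset.sum_congr rfl fun k _ => ?_
          rw [Algebra.smul_def]
          change s0 ^ τ * y j0 ^ t * ((a k : Ω) / y j0 ^ t * m k) = _
          have h4 : y j0 ^ t * ((a k : Ω) / y j0 ^ t) = a k :=
            mul_div_cancel₀ _ (pow_ne_zero _ hj0)
          calc s0 ^ τ * y j0 ^ t * ((a k : Ω) / y j0 ^ t * m k)
              = s0 ^ τ * (y j0 ^ t * ((a k : Ω) / y j0 ^ t)) * m k := by ring
            _ = (a k : Ω) * (s0 ^ τ * m k) := by rw [h4]; ring
        exact (mul_eq_zero.mp h3).resolve_left hne)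
      funext k
      apply Subtype.ext
      have h3 := congrArg (fun z : KA => (z : Ω)) (h2 k)
      have h4 : (a k : Ω) / y j0 ^ t = 0 := h3
      rw [div_eq_zero_iff] at h4
      exact h4.resolve_right (pow_ne_zero _ hj0)
    have h2 : LinearMap.range (Lm V (fun k => s0 ^ τ * m k)) ≤ Pc κ u (t + τ) := by
      rintro _ ⟨a, rfl⟩
      rw [Lm_apply]
      refine Submodule.sum_mem _ fun k _ => ?_
      exact Pc_mul (hpart2 t _ (a k).2) (hMk k)
    have h3 := Submodule.finrank_mono h2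
    rw [LinearMap.finrank_range_of_inj h1, Module.finrank_pi_fintype] at h3
    simpa using h3

theorem cmp5 (j0 : X) (hj0 : y j0 ≠ 0) (hz : ∀ i, IntRel (κ := κ) y 1 (z i))
    (hgr : ∃ C : ℕ, ∀ t, Module.finrank κ (Pc κ (Sum.elim y z) t) ≤ C * (t + 1)) :
    ∃ K a b δ : ℕ, 0 < δ ∧
      (∀ t ≥ K, Module.finrank κ (Pc κ (Sum.elim y z) (t + 1))
        = Module.finrank κ (Pc κ (Sum.elim y z) t) + a) ∧
      (∀ t ≥ K, Module.finrank κ (Pc κ y (t + 1)) = Module.finrank κ (Pc κ y t) + b) ∧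
      a = δ * b ∧ ∀ q : ℕ, 0 < q → (∃ ω : κ, IsPrimitiveRoot ω q) →
        (∀ i, (z i / y j0) ^ q ∈ RF κ y j0) → δ ∣ q ^ Fintype.card β := by
  choose e he g hg hz' using hz
  obtain ⟨δ, c1, c2, hδ, hδ1, hc⟩ := compare5 j0 hj0 he g hg hz'
  obtain ⟨K1, a1, hK1⟩ := Pc_ev_lin (κ := κ) (Sum.elim y z) hgr
  obtain ⟨C, hC⟩ := hgr
  obtain ⟨K2, b1, hK2⟩ := Pc_ev_lin (κ := κ) y ⟨C * (c2 + 1), fun t => by
    calc Module.finrank κ (Pc κ y t) ≤ δ * Module.finrank κ (Pc κ y t) :=
          Nat.le_mul_of_pos_left _ hδ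
      _ ≤ Module.finrank κ (Pc κ (Sum.elim y z) (t + c2)) := (hc t).2
      _ ≤ C * (t + c2 + 1) := hC _
      _ ≤ C * (c2 + 1) * (t + 1) := by
        rw [mul_assoc]
        apply Nat.mul_le_mul_left
        nlinarith⟩
  have hslope := slope_eq (fun t => Module.finrank κ (Pc κ y t))
    (fun t => Module.finrank κ (Pc κ (Sum.elim y z) t)) 1 δ b1 a1 K2 K1 c2 c1 hK2 hK1
    (fun t => by
      rw [one_mul]; exact (hc t).2)
    (fun t => by
      rw [one_mul]; exact (hc t).1)
    Nat.one_pos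
  rw [one_mul] at hslope
  refine ⟨max K1 K2, a1, b1, δ, hδ, fun t ht => hK1 t ((le_max_left _ _).trans ht),
    fun t ht => hK2 t ((le_max_right _ _).trans ht), hslope.symm, hδ1⟩

end cmp

theorem cmp_holds : Pool.Agent.Z894.SP.SCmp := by
  intro κ Ω _ _ _ _ X β _ _ y z j0 hj0 hz hgr
  obtain ⟨K, a, b, δ, h1, h2, h3, h4, h5⟩ := cmp5 j0 hj0 hz hgr
  refine ⟨K, a, b, δ, h1, h2, h3, h4, fun p k0 hp hω h => ?_⟩
  rw [pow_mul]
  exact h5 (p ^ k0) (pow_pos hp.pos k0) hω h

end Pool.Agent.Y170.SP
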